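import Pool.Agent.Helper99.EXC.GoalsD

/-!
# EXC, packet CUR: the current partial sum may be replaced by its limit

Author: helper77.
-/

open Finset

namespace Pool.Agent.Helper77.EXC

open Pool.Agent.Helper99.ERW Pool.Agent.Helper99.EXC

theorem card_box2 (n : ℕ) :
    ((Pool.Agent.Helper99.ERW.box 2 n).card : ℝ) = (2 * n + 1) ^ 2 := by
  unfold Pool.Agent.Helper99.ERW.box
  rw [Fintype.card_piFinset]
  simp only [Int.card_Icc, prod_const, card_univ, Fintype.card_fin]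
  have : ((n : ℤ) + 1 - -(n : ℤ)).toNat = 2 * n + 1 := by omega
  rw [this]
  push_cast
  ring

theorem card_Bx (b k : ℕ) : ((Bx b (k + 1)).card : ℝ) ≤ (4 * b + 1) ^ 2 * 4 ^ k := by
  unfold Bx
  rw [card_box2]
  have h1 : (1 : ℝ) ≤ 2 ^ k := one_le_pow₀ (by norm_num)
  have h2 : (4 : ℝ) ^ k = (2 ^ k) ^ 2 := by
    rw [← pow_mul, mul_comm k 2, pow_mul]; norm_num
  rw [h2, ← mul_pow]
  have hb : (0 : ℝ) ≤ b := Nat.cast_nonneg b
  apply pow_le_pow_left₀ (by positivity)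
  push_cast
  rw [pow_succ]
  nlinarith

theorem Bx_mono {b k l : ℕ} (h : k ≤ l) : Bx b k ⊆ Bx b l := by
  intro x hx
  unfold Bx at hx ⊢
  rw [mem_box] at hx ⊢
  intro i
  refine (hx i).trans ?_
  have : b * 2 ^ k ≤ b * 2 ^ l := Nat.mul_le_mul_left _ (Nat.pow_le_pow_right (by norm_num) h)
  exact_mod_cast this

section

variable {a : ℝ} {p : Site 2 → ℕ → ℝ} {V : Site 2 → ℝ} {Tl : Site 2 → ℕ → ℝ} {Si : Site 2 → ℝ}

theorem V_nonneg (H : Cook a p V Tl Si) (z : Site 2) : 0 ≤ V z :=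
  (H.tl0 z 0).trans (H.tlV z 0)

theorem bb_nonneg (V : Site 2 → ℝ) (b k : ℕ) : 0 ≤ bb V b k :=
  div_nonneg (sum_nonneg fun z _ => sq_nonneg _) (by positivity)

theorem aa_nonneg (H : Cook a p V Tl Si) (b k : ℕ) : 0 ≤ aa V b k :=
  div_nonneg (sum_nonneg fun z _ => V_nonneg H z) (by positivity)

theorem ee_nonneg (H : Cook a p V Tl Si) (b J k : ℕ) : 0 ≤ ee Tl b J k :=
  div_nonneg (sum_nonneg fun z _ => H.tl0 z J) (by positivity)

theorem aa_le_qq (V : Site 2 → ℝ) (b k s : ℕ) : aa V b k ≤ (4 * b + 1) ^ 2 * qq V b k s := by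
  have h4 : (0 : ℝ) < 4 ^ k := by positivity
  have h1 : ∑ z ∈ Bx b (k + 1), V z ≤ (4 * b + 1) ^ 2 * 4 ^ k + ∑ z ∈ Bx b (k + 1), V z ^ 2 := by
    have h2 : ∑ z ∈ Bx b (k + 1), V z ≤ ∑ z ∈ Bx b (k + 1), (1 + V z ^ 2) := by
      refine sum_le_sum fun z _ => ?_
      nlinarith [sq_nonneg (V z - 1), sq_nonneg (V z)]
    rw [sum_add_distrib] at h2
    have h3 := card_Bx b k
    simp only [sum_const, nsmul_eq_mul, mul_one] at h2
    linarith
  have h5 : aa V b k ≤ (4 * b + 1) ^ 2 + bb V b k := by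
    unfold aa bb
    rw [div_le_iff₀ h4, add_mul, div_mul_cancel₀ _ h4.ne']
    exact h1
  have h6 : (1 : ℝ) ≤ (4 * b + 1) ^ 2 := by
    have hb : (0 : ℝ) ≤ b := Nat.cast_nonneg b
    nlinarith
  have h7 := bb_nonneg V b k
  unfold qq
  have h8 := sq_nonneg (tt V b k s)
  nlinarith [mul_nonneg (by linarith : (0 : ℝ) ≤ (4 * b + 1) ^ 2 - 1) h7]

end

/-- the final estimate -/
theorem final_arith {G C J k B q e A M E : ℝ} (hG : 0 ≤ G) (hC : 0 ≤ C) (hJ : 0 ≤ J) (hk : 0 ≤ k)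
    (hB : 0 ≤ B) (hq : 0 ≤ q) (he : 0 ≤ e) (hA : 0 ≤ A) (hM : 0 ≤ M) (hE : 0 ≤ E) :
    2 * (G * C * q + G * C * (k + 1) * A * E) + J * (C * (B * q)) + C * e * M ≤
      (2 * (G * C) + C * B + C) * ((1 + J) * q + e * M) +
      (2 * (G * C) + C * B + C) * (k + 1) * A * E := by
  have hGC : 0 ≤ G * C := mul_nonneg hG hC
  have g1 : 0 ≤ G * C * (J * q) := by positivity
  have g2 : 0 ≤ C * B * q := by positivity
  have g3 : 0 ≤ G * C * (e * M) := by positivity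
  have g4 : 0 ≤ C * B * (e * M) := by positivity
  have g5 : 0 ≤ C * q := by positivity
  have g6 : 0 ≤ C * (J * q) := by positivity
  have g7 : 0 ≤ C * B * ((k + 1) * A * E) := by positivity
  have g8 : 0 ≤ C * ((k + 1) * A * E) := by positivity
  linear_combination 2 * g1 + g2 + 2 * g3 + g4 + g5 + g6 + g7 + g8

/-- packet CUR -/
theorem CUR (hLTM : LTM_stmt) (hGLA : GLA_stmt) : CUR_stmt := by
  intro C b
  obtain ⟨G, hG0, hG⟩ := hGLA C b
  refine ⟨2 * (G * |C|) + |C| * (4 * b + 1) ^ 2 + |C|, by positivity, ?_⟩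
  intro a p V Tl Si φ Φ κ k1 H S k s hk0 hks J N s0 hs0
  have hC : |C| = C := abs_of_nonneg (by linarith [S.cone])
  have hC0 : 0 ≤ C := by linarith [S.cone]
  rw [hC]
  have h4 : (0 : ℝ) < 4 ^ k := by positivity
  -- notation
  obtain ⟨M, hM⟩ : ∃ M, M = Rw p (Bx b (s + 1)) N (fun s => La a (Φ k) s.1) s0 := ⟨_, rfl⟩
  obtain ⟨E1, hE1⟩ : ∃ E1, E1 = Ex p (Bx b (s + 1)) N (one (Bx b (s + 1))) s0 := ⟨_, rfl⟩
  have hM0 : 0 ≤ M := by
    rw [hM]
    exact Rw_nonneg H.p0 H.p1 _ N (fun s _ => S.mu0 k hk0 _) s0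
  have hE0 : 0 ≤ E1 := by
    rw [hE1]
    refine Ex_nonneg H.p0 H.p1 _ N (fun s => ?_) s0
    unfold one; split_ifs <;> norm_num
  have hqq : 0 ≤ qq V b k s := by
    unfold qq
    have := bb_nonneg V b k
    positivity
  have haa := aa_nonneg H b k
  have hee := ee_nonneg H b J k
  -- the kernel vanishes off the box
  have hoff := S.hS k hk0
  have hb1 := S.h1 k hk0
  -- first weight
  have key1 := hG a p V Tl Si φ Φ κ k1 H S k s hk0 hks N s0
    (fun z => hk Φ k z * (Si z - Sm a p z (s0.2 z))) C hC0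
    (fun z _ => by
      rw [abs_mul]
      calc |hk Φ k z| * |Si z - Sm a p z (s0.2 z)| ≤ C / 4 ^ k * V z :=
            mul_le_mul (hb1 z) ((H.lim z _).trans (H.tlV z _)) (abs_nonneg _) (by positivity)
        _ = C * V z / 4 ^ k := by ring)
    (fun z hz => by rw [hoff z hz, zero_mul])
  have key2 := hG a p V Tl Si φ Φ κ k1 H S k s hk0 hks N s0
    (fun z => |hk Φ k z| * Tl z J) C hC0
    (fun z _ => by
      rw [abs_mul, abs_abs, abs_of_nonneg (H.tl0 z J)]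
      calc |hk Φ k z| * Tl z J ≤ C / 4 ^ k * V z :=
            mul_le_mul (hb1 z) (H.tlV z _) (H.tl0 z J) (by positivity)
        _ = C * V z / 4 ^ k := by ring)
    (fun z hz => by rw [hoff z hz, abs_zero, zero_mul])
  have hsum1 : ∑ z ∈ Bx b k, hk Φ k z * (Si z - Sm a p z (s0.2 z))
      = ci Φ Si b k - cL a p Φ b k s0.2 := by
    unfold ci cL
    rw [← sum_sub_distrib]
    exact sum_congr rfl fun z _ => by ring
  -- sums over the boxes
  have hsub : ∀ F : Site 2 → ℝ, (∀ z, 0 ≤ F z) →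
      ∑ z ∈ Bx b k, |hk Φ k z| * F z ≤ C * ((∑ z ∈ Bx b (k + 1), F z) / 4 ^ k) := by
    intro F hF
    calc ∑ z ∈ Bx b k, |hk Φ k z| * F z ≤ ∑ z ∈ Bx b k, C / 4 ^ k * F z :=
          sum_le_sum fun z _ => mul_le_mul_of_nonneg_right (hb1 z) (hF z)
      _ ≤ ∑ z ∈ Bx b (k + 1), C / 4 ^ k * F z :=
          sum_le_sum_of_subset_of_nonneg (Bx_mono (Nat.le_succ k)) fun z _ _ =>
            mul_nonneg (by positivity) (hF z)
      _ = C * ((∑ z ∈ Bx b (k + 1), F z) / 4 ^ k) := by rw [← mul_sum]; ring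
  have hsum2 : ∑ z ∈ Bx b k, |hk Φ k z| * Tl z J ≤ C * ee Tl b J k := hsub _ fun z => H.tl0 z J
  have hsum3 : ∑ z ∈ Bx b (s + 1), |hk Φ k z| * V z ≤ C * aa V b k := by
    have h1 : ∑ z ∈ Bx b (s + 1), |hk Φ k z| * V z = ∑ z ∈ Bx b k, |hk Φ k z| * V z := by
      symm
      refine sum_subset (Bx_mono (by omega)) fun z _ hz => ?_
      rw [hoff z hz, abs_zero, zero_mul]
    rw [h1]
    exact hsub _ (V_nonneg H)
  -- the second reward
  have hL3 := (hLTM a p V Tl Si H (Bx b (s + 1)) N s0).2.2 (fun z => |hk Φ k z| * V z) J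
    (fun z => mul_nonneg (abs_nonneg _) (V_nonneg H z))
  have hL3' : Rw p (Bx b (s + 1)) N
      (fun s => |hk Φ k s.1| * V s.1 * (if s.2 s.1 < J then 1 else 0)) s0 ≤ J * (C * aa V b k) :=
    hL3.trans (mul_le_mul_of_nonneg_left hsum3 (Nat.cast_nonneg J))
  have hsec : |Rw p (Bx b (s + 1)) N
      (fun s => hk Φ k s.1 * (Si s.1 - Sm a p s.1 (inc s s.1))) s0| ≤
      J * (C * aa V b k) + Rw p (Bx b (s + 1)) N (fun s => |hk Φ k s.1| * Tl s.1 J) s0 := by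
    refine (Rw_abs H.p0 H.p1 _ N _ s0).trans ?_
    have h1 : Rw p (Bx b (s + 1)) N
        (fun s => |hk Φ k s.1 * (Si s.1 - Sm a p s.1 (inc s s.1))|) s0 ≤
        Rw p (Bx b (s + 1)) N
        (fun s => |hk Φ k s.1| * V s.1 * (if s.2 s.1 < J then 1 else 0) +
          |hk Φ k s.1| * Tl s.1 J) s0 := by
      refine Rw_mono H.p0 H.p1 _ N (fun s _ => ?_) s0
      rw [abs_mul]
      have h2 : |Si s.1 - Sm a p s.1 (inc s s.1)| ≤
          V s.1 * (if s.2 s.1 < J then 1 else 0) + Tl s.1 J := by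
        refine (H.lim s.1 _).trans ?_
        rw [inc_self]
        split_ifs with h
        · have := H.tlV s.1 (s.2 s.1 + 1)
          have := H.tl0 s.1 J
          linarith
        · rw [mul_zero, zero_add]
          exact H.anti s.1 (by omega)
      calc |hk Φ k s.1| * |Si s.1 - Sm a p s.1 (inc s s.1)| ≤ |hk Φ k s.1| *
            (V s.1 * (if s.2 s.1 < J then 1 else 0) + Tl s.1 J) :=
            mul_le_mul_of_nonneg_left h2 (abs_nonneg _)
        _ = _ := by ring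
    refine h1.trans ?_
    rw [Rw_add]
    linarith
  -- decomposition
  have hdec : Rw p (Bx b (s + 1)) N (fun s => hk Φ k s.1 * DS a p s0.2 s s.1) s0 =
      Rw p (Bx b (s + 1)) N (fun s => hk Φ k s.1 * (Si s.1 - Sm a p s.1 (s0.2 s.1))) s0 -
      Rw p (Bx b (s + 1)) N (fun s => hk Φ k s.1 * (Si s.1 - Sm a p s.1 (inc s s.1))) s0 := by
    rw [← Rw_sub]
    refine Rw_congr p _ N (fun s _ => ?_) s0
    unfold DS
    ring
  rw [hsum1] at key1
  rw [hdec]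
  rw [← hM, ← hE1] at key1 key2 ⊢
  have e1 := aa_le_qq V b k s
  rw [abs_le] at key1 key2 hsec ⊢
  obtain ⟨a1, a2⟩ := key1
  obtain ⟨b1, b2⟩ := key2
  obtain ⟨c1, c2⟩ := hsec
  have f1 : (∑ z ∈ Bx b k, |hk Φ k z| * Tl z J) * M ≤ C * ee Tl b J k * M :=
    mul_le_mul_of_nonneg_right hsum2 hM0
  have hJ : (0 : ℝ) ≤ J := Nat.cast_nonneg J
  have hk' : (0 : ℝ) ≤ k := Nat.cast_nonneg k
  have hb' : (0 : ℝ) ≤ (4 * b + 1) ^ 2 := by positivity
  have f2 : (J : ℝ) * (C * aa V b k) ≤ J * (C * ((4 * b + 1) ^ 2 * qq V b k s)) :=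
    mul_le_mul_of_nonneg_left (mul_le_mul_of_nonneg_left e1 hC0) hJ
  have total := final_arith hG0 hC0 hJ hk' hb' hqq hee haa hM0 hE0
  constructor <;> linarith

end Pool.Agent.Helper77.EXC
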